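import Pool.Agent.H1.NV.D

/-!
Second hand for NV/Vf (helper72).
-/

set_option autoImplicit false

namespace NV1

open Complex Set Filter Topology MeasureTheory EW1 EX1 LD1
open scoped ComplexConjugate ContDiff Real

theorem Vf72_cau {G : ℂ → ℂ} {ρ : ℝ} (hρ : 0 < ρ) (hρ1 : ρ < 1) (hG : ∀ w : ℂ, w ≠ 0 → DifferentiableAt ℂ G w) :
    ∫ t in (0 : ℝ)..(2 * π), G (ρ * exp (t * I)) = ∫ t in (0 : ℝ)..(2 * π), G (exp (t * I)) := by
  have h1 := Complex.circleIntegral_sub_center_inv_smul_eq_of_differentiable_on_annulus_off_countable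
    (c := 0) hρ hρ1.le (f := G) (s := ∅) countable_empty (by
      intro w hw
      refine (hG w ?_).continuousAt.continuousWithinAt
      have := hw.2
      rw [mem_ball_zero_iff, not_lt] at this
      exact norm_pos_iff.1 (hρ.trans_le this)) (by
      intro w hw
      refine hG w ?_
      have := hw.1.2
      rw [mem_closedBall_zero_iff, not_le] at this
      exact norm_pos_iff.1 (hρ.trans this))
  have h2 : ∀ R : ℝ, 0 < R → (∮ z in C(0, R), (z - 0)⁻¹ • G z) =
      I * ∫ t in (0 : ℝ)..(2 * π), G (R * exp (t * I)) := by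
    intro R hR
    rw [circleIntegral, ← intervalIntegral.integral_const_mul]
    refine intervalIntegral.integral_congr fun t _ => ?_
    have hne : (R : ℂ) * exp (t * I) ≠ 0 := mul_ne_zero (by exact_mod_cast hR.ne') (Complex.exp_ne_zero _)
    simp only [deriv_circleMap, circleMap, sub_zero, zero_add, smul_eq_mul]
    have e0 : (R : ℂ) * exp (t * I) * I * (((R : ℂ) * exp (t * I))⁻¹ * G ((R : ℂ) * exp (t * I))) =
        ((R : ℂ) * exp (t * I)) * ((R : ℂ) * exp (t * I))⁻¹ * (I * G ((R : ℂ) * exp (t * I))) := by ring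
    rw [e0, mul_inv_cancel₀ hne, one_mul]
  rw [h2 1 one_pos, h2 ρ hρ] at h1
  have h3 := mul_left_cancel₀ I_ne_zero h1
  simp only [Complex.ofReal_one, one_mul] at h3
  exact h3.symm

theorem Vf72_anti {T : ℂ → ℂ} {μ : ℂ} (hμ : ‖μ‖ < 1) (hμ0 : μ ≠ 0) (hT : ∀ w : ℂ, w ≠ 0 → DifferentiableAt ℂ T w)
    (ha : ∀ w : ℂ, w ≠ 0 → T (μ * w⁻¹) = -T w) : ∫ t in (0 : ℝ)..(2 * π), T (exp (t * I)) = 0 := by
  have h1 := Vf72_cau (norm_pos_iff.2 hμ0) hμ hT
  have h2 : ∀ t : ℝ, T (‖μ‖ * exp (t * I)) = -T (exp (((arg μ - t : ℝ) : ℂ) * I)) := by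
    intro t
    rw [← ha _ (Complex.exp_ne_zero _)]
    congr 1
    have h4 : (‖μ‖ : ℂ) * exp (arg μ * I) * (exp (((arg μ - t : ℝ) : ℂ) * I))⁻¹ = ‖μ‖ * exp (t * I) := by
      rw [← Complex.exp_neg, mul_assoc, ← Complex.exp_add]
      congr 2
      push_cast
      ring
    rw [Complex.norm_mul_exp_arg_mul_I] at h4
    exact h4.symm
  simp only [h2] at h1
  rw [intervalIntegral.integral_neg, intervalIntegral.integral_comp_sub_left (fun u : ℝ => T (exp ((u : ℂ) * I)))] at h1
  have hper : Function.Periodic (fun u : ℝ => T (exp ((u : ℂ) * I))) (2 * π) := by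
    intro u
    show T (exp (((u + 2 * π : ℝ) : ℂ) * I)) = T (exp ((u : ℂ) * I))
    congr 1
    push_cast
    rw [add_mul, Complex.exp_add, Complex.exp_two_pi_mul_I, mul_one]
  have h4 := hper.intervalIntegral_add_eq (arg μ - 2 * π) 0
  rw [sub_add_cancel, zero_add] at h4
  rw [sub_zero, h4] at h1
  have h5 : (2 : ℂ) * ∫ t in (0 : ℝ)..(2 * π), T (exp (t * I)) = 0 := by linear_combination -h1
  exact (mul_eq_zero.1 h5).resolve_left two_ne_zero

/-- truncation -/
noncomputable def Vf72S (μ : ℂ) (f : ℕ → ℂ) (N : ℕ) (w : ℂ) : ℂ :=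
  ∑ n ∈ Finset.range N, f n * (w ^ (n + 1) - (μ * w⁻¹) ^ (n + 1))

noncomputable def Vf72v (μ : ℂ) (f : ℕ → ℂ) (N : ℕ) (w : ℂ) : ℂ :=
  ∑ n ∈ Finset.range N, f n * ∑ i ∈ Finset.range (n + 1), w ^ i * (μ * w⁻¹) ^ (n - i)

theorem Vf72_Sv (μ : ℂ) (f : ℕ → ℂ) (N : ℕ) (w : ℂ) : Vf72S μ f N w = Vf72v μ f N w * pw μ w := by
  unfold Vf72S Vf72v pw
  rw [Finset.sum_mul]
  refine Finset.sum_congr rfl fun n _ => ?_
  have h := (Commute.all w (μ * w⁻¹)).geom_sum₂_mul (n + 1)
  rw [mul_assoc, ← h]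
  rfl

theorem Vf72_trunc {μ : ℂ} (hμ : ‖μ‖ < 1) (f : ℕ → ℂ) (a b c : ℂ) (N : ℕ) :
    ∫ t in (0 : ℝ)..(2 * π), qp a b c (zw μ (ee t)) / pw μ (ee t) * Vf72S μ f N (ee t) ^ 2 = 0 := by
  have hpw : ∀ t : ℝ, pw μ (ee t) ≠ 0 := by
    intro t h
    unfold pw at h
    have hn : ‖ee t‖ = 1 := Complex.norm_exp_ofReal_mul_I t
    have h0 : ee t ≠ 0 := Complex.exp_ne_zero _
    have h1 : ee t * ee t = μ := by
      have h2 : ee t = μ * (ee t)⁻¹ := sub_eq_zero.1 h
      calc ee t * ee t = (μ * (ee t)⁻¹) * ee t := by rw [← h2]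
        _ = μ := by rw [mul_assoc, inv_mul_cancel₀ h0, mul_one]
    rw [← h1, norm_mul, hn] at hμ
    norm_num at hμ
  have e1 : ∀ t : ℝ, qp a b c (zw μ (ee t)) / pw μ (ee t) * Vf72S μ f N (ee t) ^ 2 =
      (fun w : ℂ => qp a b c (zw μ w) * Vf72v μ f N w * Vf72S μ f N w) (exp (t * I)) := by
    intro t
    have h1 := hpw t
    show qp a b c (zw μ (ee t)) / pw μ (ee t) * Vf72S μ f N (ee t) ^ 2 =
      qp a b c (zw μ (ee t)) * Vf72v μ f N (ee t) * Vf72S μ f N (ee t)
    rw [pow_two, ← mul_assoc, mul_right_comm, Vf72_Sv]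
    field_simp
  simp only [e1]
  by_cases hμ0 : μ = 0
  · subst hμ0
    have hd : Differentiable ℂ (fun w : ℂ => w * (qp a b c w * (∑ n ∈ Finset.range N, f n * w ^ n) ^ 2)) := by
      unfold qp
      fun_prop
    have h1 := (hd.diffContOnCl (s := Metric.ball (0 : ℂ) 1)).circleIntegral_sub_inv_smul (w := 0) (by simp)
    rw [zero_mul, smul_zero] at h1
    have h2 : (∮ z in C(0, 1), (z - 0)⁻¹ • (z * (qp a b c z * (∑ n ∈ Finset.range N, f n * z ^ n) ^ 2))) =
        I * ∫ t in (0 : ℝ)..(2 * π), (exp (t * I)) * (qp a b c (exp (t * I)) * (∑ n ∈ Finset.range N, f n * (exp (t * I)) ^ n) ^ 2) := by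
      rw [circleIntegral, ← intervalIntegral.integral_const_mul]
      refine intervalIntegral.integral_congr fun t _ => ?_
      have hne : exp (t * I) ≠ 0 := Complex.exp_ne_zero _
      simp only [deriv_circleMap, circleMap, sub_zero, zero_add, smul_eq_mul, Complex.ofReal_one, one_mul]
      field_simp
    rw [h2] at h1
    have h3 := (mul_eq_zero.1 h1).resolve_left I_ne_zero
    refine Eq.trans ?_ h3
    refine intervalIntegral.integral_congr fun t _ => ?_
    have hne : exp (t * I) ≠ 0 := Complex.exp_ne_zero _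
    have e2 : Vf72S 0 f N (exp (t * I)) = exp (t * I) * ∑ n ∈ Finset.range N, f n * (exp (t * I)) ^ n := by
      unfold Vf72S
      rw [Finset.mul_sum]
      refine Finset.sum_congr rfl fun n _ => ?_
      rw [zero_mul, zero_pow (by omega), sub_zero, pow_succ]
      ring
    have e3 : Vf72S 0 f N (exp (t * I)) = Vf72v 0 f N (exp (t * I)) * exp (t * I) := by
      rw [Vf72_Sv]
      unfold pw
      rw [zero_mul, sub_zero]
    have e4 : Vf72v 0 f N (exp (t * I)) = ∑ n ∈ Finset.range N, f n * (exp (t * I)) ^ n := by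
      rw [e2, mul_comm] at e3
      exact (mul_right_cancel₀ hne e3).symm
    show qp a b c (zw 0 (exp (t * I))) * Vf72v 0 f N (exp (t * I)) * Vf72S 0 f N (exp (t * I)) = _
    rw [e2, e4]
    unfold zw
    rw [zero_mul, add_zero]
    ring
  · refine Vf72_anti (T := fun w : ℂ => qp a b c (zw μ w) * Vf72v μ f N w * Vf72S μ f N w) hμ hμ0 ?_ ?_
    · intro w hw
      unfold Vf72v Vf72S qp zw
      fun_prop (disch := exact hw)
    · intro w hw
      have hz : zw μ (μ * w⁻¹) = zw μ w := by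
        unfold zw
        field_simp
        ring
      have hi : μ * (μ * w⁻¹)⁻¹ = w := by
        field_simp
      have hS : Vf72S μ f N (μ * w⁻¹) = -Vf72S μ f N w := by
        unfold Vf72S
        rw [hi, ← Finset.sum_neg_distrib]
        refine Finset.sum_congr rfl fun n _ => ?_
        ring
      have hv : Vf72v μ f N (μ * w⁻¹) = Vf72v μ f N w := by
        unfold Vf72v
        rw [hi]
        refine Finset.sum_congr rfl fun n _ => ?_
        congr 1
        have h := (Commute.all (μ * w⁻¹) w).geom_sum₂_comm (n + 1)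
        exact h
      show qp a b c (zw μ (μ * w⁻¹)) * Vf72v μ f N (μ * w⁻¹) * Vf72S μ f N (μ * w⁻¹) =
        -(qp a b c (zw μ w) * Vf72v μ f N w * Vf72S μ f N w)
      rw [hz, hS, hv]
      ring

theorem Vf72_sum {s : ℝ} (hs : 1 < s) {f : ℕ → ℂ} (hf : Gs s f) : Summable (fun n => ‖f n‖) := by
  obtain ⟨C, hC⟩ := hf
  have hs0 : 0 < s := by linarith
  refine Summable.of_nonneg_of_le (fun n => norm_nonneg _) (fun n => ?_)
    ((summable_geometric_of_lt_one (inv_nonneg.2 hs0.le) (inv_lt_one_of_one_lt₀ hs)).mul_left C)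
  have h1 := hC n
  rw [inv_pow, ← div_eq_mul_inv, le_div_iff₀ (by positivity)]
  exact h1

theorem antis72 {μ : ℂ} (hμ : ‖μ‖ < 1) {s : ℝ} (hs : 1 < s) {f : ℕ → ℂ} (hf : Gs s f) (a b c : ℂ) :
    Continuous (fun t : ℝ => sE μ f (ee t)) ∧
    ∫ t in (0 : ℝ)..(2 * π), qp a b c (zw μ (ee t)) / pw μ (ee t) * sE μ f (ee t) ^ 2 = 0 := by
  have hsum := Vf72_sum hs hf
  have hee : Continuous ee := by
    unfold ee
    fun_prop
  have hee0 : ∀ t, ee t ≠ 0 := fun t => Complex.exp_ne_zero _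
  have hei : Continuous fun t => (ee t)⁻¹ := hee.inv₀ hee0
  have hn : ∀ t, ‖ee t‖ = 1 := fun t => Complex.norm_exp_ofReal_mul_I t
  have hb : ∀ (n : ℕ) (t : ℝ), ‖f n * (ee t ^ (n + 1) - (μ * (ee t)⁻¹) ^ (n + 1))‖ ≤ ‖f n‖ * 2 := by
    intro n t
    rw [norm_mul]
    refine mul_le_mul_of_nonneg_left ((norm_sub_le _ _).trans ?_) (norm_nonneg _)
    rw [norm_pow, norm_pow, norm_mul, norm_inv, hn, one_pow, inv_one, mul_one]
    have := pow_le_one₀ (n := n + 1) (norm_nonneg μ) hμ.le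
    linarith
  have hc1 : Continuous (fun t : ℝ => sE μ f (ee t)) := by
    unfold sE
    refine continuous_tsum (fun n => ?_) (hsum.mul_right 2) hb
    exact continuous_const.mul ((hee.pow _).sub ((continuous_const.mul hei).pow _))
  refine ⟨hc1, ?_⟩
  have hcS : ∀ N, Continuous (fun t : ℝ => Vf72S μ f N (ee t)) := by
    intro N
    unfold Vf72S
    exact continuous_finsetSum _ fun n _ => continuous_const.mul ((hee.pow _).sub ((continuous_const.mul hei).pow _))
  have hpw : ∀ t : ℝ, pw μ (ee t) ≠ 0 := by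
    intro t h
    unfold pw at h
    have h1 : ee t * ee t = μ := by
      have h2 : ee t = μ * (ee t)⁻¹ := sub_eq_zero.1 h
      calc ee t * ee t = (μ * (ee t)⁻¹) * ee t := by rw [← h2]
        _ = μ := by rw [mul_assoc, inv_mul_cancel₀ (hee0 t), mul_one]
    rw [← h1, norm_mul, hn] at hμ
    norm_num at hμ
  have hcq : Continuous (fun t : ℝ => qp a b c (zw μ (ee t)) / pw μ (ee t)) := by
    refine Continuous.div ?_ ?_ hpw
    · unfold qp zw
      have hz : Continuous fun t : ℝ => ee t + μ * (ee t)⁻¹ := hee.add (continuous_const.mul hei)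
      exact (continuous_const.add (continuous_const.mul hz)).add (continuous_const.mul (hz.pow 2))
    · unfold pw
      exact hee.sub (continuous_const.mul hei)
  have hlim : Tendsto (fun N : ℕ => ∫ t in (0 : ℝ)..(2 * π), qp a b c (zw μ (ee t)) / pw μ (ee t) * Vf72S μ f N (ee t) ^ 2)
      atTop (𝓝 (∫ t in (0 : ℝ)..(2 * π), qp a b c (zw μ (ee t)) / pw μ (ee t) * sE μ f (ee t) ^ 2)) := by
    refine intervalIntegral.tendsto_integral_filter_of_dominated_convergence
      (fun t => ‖qp a b c (zw μ (ee t)) / pw μ (ee t)‖ * (∑' n, ‖f n‖ * 2) ^ 2) ?_ ?_ ?_ ?_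
    · exact Eventually.of_forall fun N => (hcq.mul ((hcS N).pow 2)).aestronglyMeasurable
    · refine Eventually.of_forall fun N => Eventually.of_forall fun t _ => ?_
      rw [norm_mul, norm_pow]
      refine mul_le_mul_of_nonneg_left (pow_le_pow_left₀ (norm_nonneg _) ?_ 2) (norm_nonneg _)
      unfold Vf72S
      refine (norm_sum_le _ _).trans ?_
      refine (Finset.sum_le_sum fun n _ => hb n t).trans ?_
      exact (hsum.mul_right 2).sum_le_tsum _ (fun n _ => by positivity)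
    · exact ((hcq.norm.mul continuous_const).intervalIntegrable _ _)
    · refine Eventually.of_forall fun t _ => ?_
      have h1 : Summable (fun n : ℕ => f n * (ee t ^ (n + 1) - (μ * (ee t)⁻¹) ^ (n + 1))) :=
        Summable.of_norm_bounded (hsum.mul_right 2) (fun n => hb n t)
      exact (h1.hasSum.tendsto_sum_nat.pow 2).const_mul _
  simp only [Vf72_trunc hμ f a b c] at hlim
  exact tendsto_nhds_unique hlim tendsto_const_nhds

end NV1
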